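import Pool.Agent.TH464.PO.LinInst

set_option autoImplicit false

/-!
# Almost prime tuplets `a i m + 1`, uniformly in the `a i`: the density in all windows around
almost all integers

Let `m` be good if the `K` numbers `a i m + 1` all have at most `(D + 1) r` prime factors, all
larger than `X ^ (1 / r)`. Let `V` be the product of `1 - ρ(p) / p` over the primes `p ≤ X ^ (1 /
r)`, `ρ(p)` the number of the bad residues. Given `θ > 0` and `ε > 0` there are `C` and `r0` such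
that for every `r ≥ r0` and all large `X`, uniformly in the distinct `a i ≤ X ^ D` (`K` of them,
admissible), in ALL intervals `(Z, Z + Y]` with `Z, Y ≥ X ^ θ`, `Z + Y ≤ 2 X`, for all but at most
`ε Y` of the integers `n` of the interval ALL windows `(u, v]` around `n` inside it of length at
least `C / V` contain `(1 ± ε) (v - u) V` good integers.
-/

namespace Pool.Agent.Results.MP_d018b2_nt.ExactWindows

open Finset Filter

/-- `N` has at most `B` prime factors (with multiplicity), all of them larger than `z`. -/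
def AlmostPrime (B : ℕ) (z : ℝ) (N : ℕ) : Prop :=
  N.primeFactorsList.length ≤ B ∧ ∀ p : ℕ, p.Prime → p ∣ N → z < (p : ℝ)

/-- The `a i` are positive, at most `B` and distinct, and the product of the `a i m + 1` has no fixed prime
divisor. -/
structure Admissible {K : ℕ} (a : Fin K → ℕ) (B : ℕ) : Prop where
  pos : ∀ i, 1 ≤ a i
  le : ∀ i, a i ≤ B
  distinct : Function.Injective a
  noFixedPrime : ∀ p : ℕ, p.Prime → ∃ m : ℕ, ∀ i, ¬ p ∣ a i * m + 1

/-- `m` is good: all the `a i m + 1` have at most `(D + 1) r` prime factors, all larger than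
`X ^ (1 / r)`. -/
def Good {K : ℕ} (D r X : ℕ) (a : Fin K → ℕ) (m : ℕ) : Prop :=
  ∀ i, AlmostPrime ((D + 1) * r) ((X : ℝ) ^ (1 / (r : ℝ))) (a i * m + 1)

open Classical in
/-- The sieve density: the product of `1 - ρ(p) / p` over the primes `p ≤ X ^ (1 / r)`, where `ρ(p)` is
the number of the `t` mod `p` with `p` dividing one of the `a i t + 1`. -/
noncomputable def V {K : ℕ} (r X : ℕ) (a : Fin K → ℕ) : ℝ :=
  ∏ p ∈ (Finset.range (⌊(X : ℝ) ^ (1 / (r : ℝ))⌋₊ + 1)).filter Nat.Prime,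
    (1 - (((Finset.range p).filter (fun t : ℕ => ∃ i, p ∣ a i * t + 1)).card : ℝ) / p)

open Classical in
/-- The number of the good `m` in `(u, v]`. -/
noncomputable def N {K : ℕ} (D r X : ℕ) (a : Fin K → ℕ) (u v : ℕ) : ℕ :=
  ((Finset.Ioc u v).filter (fun m => Good D r X a m)).card

/-- All windows around `n` inside `(Z, Z + Y]` of length at least `C / V` have the density `V` up to
`ε`. -/
def AllWindows {K : ℕ} (D r X : ℕ) (a : Fin K → ℕ) (C ε : ℝ) (Z Y n : ℕ) : Prop :=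
  ∀ u v : ℕ, Z ≤ u → u < n → n ≤ v → v ≤ Z + Y → C ≤ ((v : ℝ) - u) * V r X a →
    |(N D r X a u v : ℝ) - (v - u) * V r X a| ≤ ε * ((v - u) * V r X a)

open Pool.Agent.TH464.PO Pool.Agent.H373R2.T7 Pool.Agent.W123.RP

lemma fam (K D : ℕ) (hK : 2 ≤ K) (r : ℕ) (hr : 1 ≤ r) : ∀ᶠ X : ℕ in atTop, ∀ a : Fin K → ℕ,
    Admissible a (X ^ D) → ∃ u v : Fin K → ℤ, LF K u v (X ^ D) (Real.log X ^ (K + 1)) ∧
      (∀ m ≤ 3 * X, Sf (QL u v) ⌊(X : ℝ) ^ (1 / (r : ℝ))⌋₊ m ↔ Good D r X a m) ∧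
      Vq (QL u v) ⌊(X : ℝ) ^ (1 / (r : ℝ))⌋₊ = V r X a := by
  filter_upwards [one_fam K D hK r hr] with X h a ha
  obtain ⟨h1, h2⟩ := h a ha.pos ha.le ha.distinct ha.noFixedPrime
  exact ⟨_, _, h1, h2, V_nat a (fun _ => 1) _ (fun p m => Iff.rfl) _⟩

open Classical in
/-- **The density in all windows around almost all integers.** -/
theorem result (K D : ℕ) (hK : 2 ≤ K) (θ : ℝ) (hθ : 0 < θ) (ε : ℝ) (hε : 0 < ε) :
    ∃ (C : ℝ) (r0 : ℕ), 0 < C ∧ ∀ r : ℕ, r0 ≤ r → ∀ᶠ X : ℕ in atTop, ∀ a : Fin K → ℕ, Admissible a (X ^ D) →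
      
      ∀ Z Y : ℕ, (X : ℝ) ^ θ ≤ Z → (X : ℝ) ^ θ ≤ Y → Z + Y ≤ 2 * X →
        (((Finset.Ioc Z (Z + Y)).filter (fun n => ¬ AllWindows D r X a C ε Z Y n)).card : ℝ) ≤
          ε * Y := by
  obtain ⟨C, r0, hC, h⟩ := fam_ex K D (by omega) (fun X a => Admissible a (X ^ D)) (fun r X a m => Good D r X a m)
    (fun r X a => V r X a) (fam K D hK) θ hθ ε hε
  refine ⟨C, r0, hC, fun r hr => ?_⟩
  filter_upwards [h r hr] with X hX a ha Z Y hXZ hXY hZY
  exact (hX a ha Z Y hXZ hXY hZY).1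

end Pool.Agent.Results.MP_d018b2_nt.ExactWindows
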