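import Pool.Agent.TH464.PO.LinJoint

set_option autoImplicit false

/-!
# Almost prime tuplets `a i m + 1`, uniformly in the `a i`: the joint law in several windows
around them

Let `m` be good if the `K` numbers `a i m + 1` all have at most `(D + 1) r` prime factors, all
larger than `X ^ (1 / r)`. Let `V` be the product of `1 - ρ(p) / p` over the primes `p ≤ X ^ (1 /
r)`, `ρ(p)` the number of the bad residues. For all `r ≥ r0` and all large `X`, uniformly in the
distinct `a i ≤ X ^ D` (`K` of them, admissible), in ALL intervals `(Z, Z + Y]` inside `[0, 2 X]`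
of length `Y ≥ X ^ θ`: if `m` runs through the good integers in `(Z, Z + Y]`, the numbers of the
good integers in any `w` disjoint windows on both sides of `m`, at distance at most `x / V` from
`m` and not containing `m`, are asymptotically independent Poisson variables, whose means are `V`
times the lengths of the windows. In particular the gap before `m` and the gap after `m` are
asymptotically independent.
-/

namespace Pool.Agent.Results.MP_d018b2_nt.IndependentNeighbours

open Finset Filter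

/-- `N` has at most `B` prime factors (with multiplicity), all of them larger than `z`. -/
def AlmostPrime (B : ℕ) (z : ℝ) (N : ℕ) : Prop :=
  N.primeFactorsList.length ≤ B ∧ ∀ p : ℕ, p.Prime → p ∣ N → z < (p : ℝ)

/-- The `a i` are positive, at most `B` and distinct, and the product of the `a i m + 1` has no fixed prime
divisor. -/
structure Admissible {K : ℕ} (a : Fin K → ℕ) (B : ℕ) : Prop where
  pos : ∀ i, 1 ≤ a i
  le : ∀ i, a i ≤ B
  distinct : Function.Injective a
  noFixedPrime : ∀ p : ℕ, p.Prime → ∃ m : ℕ, ∀ i, ¬ p ∣ a i * m + 1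

/-- `m` is good: all the `a i m + 1` have at most `(D + 1) r` prime factors, all larger than
`X ^ (1 / r)`. -/
def Good {K : ℕ} (D r X : ℕ) (a : Fin K → ℕ) (m : ℕ) : Prop :=
  ∀ i, AlmostPrime ((D + 1) * r) ((X : ℝ) ^ (1 / (r : ℝ))) (a i * m + 1)

open Classical in
/-- The sieve density: the product of `1 - ρ(p) / p` over the primes `p ≤ X ^ (1 / r)`, where `ρ(p)` is
the number of the `t` mod `p` with `p` dividing one of the `a i t + 1`. -/
noncomputable def V {K : ℕ} (r X : ℕ) (a : Fin K → ℕ) : ℝ :=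
  ∏ p ∈ (Finset.range (⌊(X : ℝ) ^ (1 / (r : ℝ))⌋₊ + 1)).filter Nat.Prime,
    (1 - (((Finset.range p).filter (fun t : ℕ => ∃ i, p ∣ a i * t + 1)).card : ℝ) / p)

open Classical in
/-- The number of the good `m` in `(u, v]`. -/
noncomputable def N {K : ℕ} (D r X : ℕ) (a : Fin K → ℕ) (u v : ℕ) : ℕ :=
  ((Finset.Ioc u v).filter (fun m => Good D r X a m)).card

/-- The probability of `E` for the Poisson distribution of mean `x`. -/
noncomputable def Poi (x : ℝ) (E : Finset ℕ) : ℝ :=
  ∑ j ∈ E, Real.exp (-x) * x ^ j / j.factorial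

open Pool.Agent.TH464.PO Pool.Agent.H373R2.T7 Pool.Agent.W123.RP

lemma fam (K D : ℕ) (hK : 2 ≤ K) (r : ℕ) (hr : 1 ≤ r) : ∀ᶠ X : ℕ in atTop, ∀ a : Fin K → ℕ,
    Admissible a (X ^ D) → ∃ u v : Fin K → ℤ, LF K u v (X ^ D) (Real.log X ^ (K + 1)) ∧
      (∀ m ≤ 3 * X, Sf (QL u v) ⌊(X : ℝ) ^ (1 / (r : ℝ))⌋₊ m ↔ Good D r X a m) ∧
      Vq (QL u v) ⌊(X : ℝ) ^ (1 / (r : ℝ))⌋₊ = V r X a := by
  filter_upwards [one_fam K D hK r hr] with X h a ha
  obtain ⟨h1, h2⟩ := h a ha.pos ha.le ha.distinct ha.noFixedPrime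
  exact ⟨_, _, h1, h2, V_nat a (fun _ => 1) _ (fun p m => Iff.rfl) _⟩

open Classical in
/-- **The joint law in several windows around the good integers**, in all intervals. The windows around
`m` are the `(m - q + u_i, m - q + v_i]`; as `v_i < q` or `q ≤ u_i`, they do not contain `m`. -/
theorem result (K D : ℕ) (hK : 2 ≤ K) (θ : ℝ) (hθ : 0 < θ) (w : ℕ) (x ε : ℝ) (hε : 0 < ε) :
    ∃ r0 : ℕ, ∀ r : ℕ, r0 ≤ r → ∀ᶠ X : ℕ in atTop, ∀ a : Fin K → ℕ, Admissible a (X ^ D) →
      ∀ Z Y : ℕ, (X : ℝ) ^ θ ≤ Y →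
      Z + Y ≤ 2 * X → ∀ (q : ℕ) (u v : Fin w → ℕ), q * V r X a ≤ x → (∀ i, u i ≤ v i) →
      (∀ i, v i * V r X a ≤ x) → (∀ i, v i < q ∨ q ≤ u i) →
      (∀ i j, i ≠ j → v i ≤ u j ∨ v j ≤ u i) → ∀ E : Fin w → Finset ℕ,
        |(((Finset.Ioc Z (Z + Y)).filter (fun m => Good D r X a m ∧
            ∀ i, N D r X a (m + u i - q) (m + v i - q) ∈ E i)).card : ℝ) -
          Y * V r X a * ∏ i, Poi (((v i : ℝ) - u i) * V r X a) (E i)| ≤ ε * (Y * V r X a) := by
  obtain ⟨r0, h⟩ := fam_palm K D (by omega) (fun X a => Admissible a (X ^ D)) (fun r X a m => Good D r X a m)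
    (fun r X a => V r X a) (fam K D hK) θ hθ w x ε hε
  refine ⟨r0, fun r hr => ?_⟩
  filter_upwards [h r hr] with X hX a ha
  exact hX a ha

end Pool.Agent.Results.MP_d018b2_nt.IndependentNeighbours
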