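import Pool.Agent.TH464.PO.LinJoint

set_option autoImplicit false

/-!
# Almost prime tuplets `a i m + 1`, uniformly in the `a i`: the joint law in several windows

Let `m` be good if the `K` numbers `a i m + 1` all have at most `(D + 1) r` prime factors, all
larger than `X ^ (1 / r)`. Let `V` be the product of `1 - ρ(p) / p` over the primes `p ≤ X ^ (1 /
r)`, `ρ(p)` the number of the bad residues. Given `θ > 0`, a number `w` of windows, a size `x` and
an accuracy `ε`, for all `r ≥ r0` and all large `X`, uniformly in the distinct `a i ≤ X ^ D` (`K`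
of them, admissible), in ALL intervals `(Z, Z + Y]` inside `[0, 2 X]` of length `Y ≥ X ^ θ` and
for ALL disjoint windows `(u_i, v_i]`, `i = 1, ..., w`, with `v_i V ≤ x`: the numbers of the good
integers in the windows `(n + u_i, n + v_i]`, for `n` in `(Z, Z + Y]`, are asymptotically
independent Poisson variables of means `(v_i - u_i) V`.
-/

namespace Pool.Agent.Results.MP_d018b2_nt.JointWindows

open Finset Filter

/-- `N` has at most `B` prime factors (with multiplicity), all of them larger than `z`. -/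
def AlmostPrime (B : ℕ) (z : ℝ) (N : ℕ) : Prop :=
  N.primeFactorsList.length ≤ B ∧ ∀ p : ℕ, p.Prime → p ∣ N → z < (p : ℝ)

/-- The `a i` are positive, at most `B` and distinct, and the product of the `a i m + 1` has no fixed prime
divisor. -/
structure Admissible {K : ℕ} (a : Fin K → ℕ) (B : ℕ) : Prop where
  pos : ∀ i, 1 ≤ a i
  le : ∀ i, a i ≤ B
  distinct : Function.Injective a
  noFixedPrime : ∀ p : ℕ, p.Prime → ∃ m : ℕ, ∀ i, ¬ p ∣ a i * m + 1

/-- `m` is good: all the `a i m + 1` have at most `(D + 1) r` prime factors, all larger than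
`X ^ (1 / r)`. -/
def Good {K : ℕ} (D r X : ℕ) (a : Fin K → ℕ) (m : ℕ) : Prop :=
  ∀ i, AlmostPrime ((D + 1) * r) ((X : ℝ) ^ (1 / (r : ℝ))) (a i * m + 1)

open Classical in
/-- The sieve density: the product of `1 - ρ(p) / p` over the primes `p ≤ X ^ (1 / r)`, where `ρ(p)` is
the number of the `t` mod `p` with `p` dividing one of the `a i t + 1`. -/
noncomputable def V {K : ℕ} (r X : ℕ) (a : Fin K → ℕ) : ℝ :=
  ∏ p ∈ (Finset.range (⌊(X : ℝ) ^ (1 / (r : ℝ))⌋₊ + 1)).filter Nat.Prime,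
    (1 - (((Finset.range p).filter (fun t : ℕ => ∃ i, p ∣ a i * t + 1)).card : ℝ) / p)

open Classical in
/-- The number of the good `m` in `(u, v]`. -/
noncomputable def N {K : ℕ} (D r X : ℕ) (a : Fin K → ℕ) (u v : ℕ) : ℕ :=
  ((Finset.Ioc u v).filter (fun m => Good D r X a m)).card

/-- The probability of `E` for the Poisson distribution of mean `x`. -/
noncomputable def Poi (x : ℝ) (E : Finset ℕ) : ℝ :=
  ∑ j ∈ E, Real.exp (-x) * x ^ j / j.factorial

open Pool.Agent.TH464.PO Pool.Agent.H373R2.T7 Pool.Agent.W123.RP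

lemma fam (K D : ℕ) (hK : 2 ≤ K) (r : ℕ) (hr : 1 ≤ r) : ∀ᶠ X : ℕ in atTop, ∀ a : Fin K → ℕ,
    Admissible a (X ^ D) → ∃ u v : Fin K → ℤ, LF K u v (X ^ D) (Real.log X ^ (K + 1)) ∧
      (∀ m ≤ 3 * X, Sf (QL u v) ⌊(X : ℝ) ^ (1 / (r : ℝ))⌋₊ m ↔ Good D r X a m) ∧
      Vq (QL u v) ⌊(X : ℝ) ^ (1 / (r : ℝ))⌋₊ = V r X a := by
  filter_upwards [one_fam K D hK r hr] with X h a ha
  obtain ⟨h1, h2⟩ := h a ha.pos ha.le ha.distinct ha.noFixedPrime
  exact ⟨_, _, h1, h2, V_nat a (fun _ => 1) _ (fun p m => Iff.rfl) _⟩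

open Classical in
/-- **The joint law in several windows**, in all intervals. -/
theorem result (K D : ℕ) (hK : 2 ≤ K) (θ : ℝ) (hθ : 0 < θ) (w : ℕ) (x ε : ℝ) (hε : 0 < ε) :
    ∃ r0 : ℕ, ∀ r : ℕ, r0 ≤ r → ∀ᶠ X : ℕ in atTop, ∀ a : Fin K → ℕ, Admissible a (X ^ D) →
      ∀ Z Y : ℕ, (X : ℝ) ^ θ ≤ Y →
      Z + Y ≤ 2 * X → ∀ u v : Fin w → ℕ, (∀ i, u i ≤ v i) → (∀ i, v i * V r X a ≤ x) →
      (∀ i j, i ≠ j → v i ≤ u j ∨ v j ≤ u i) → ∀ E : Fin w → Finset ℕ,
        |(((Finset.Ioc Z (Z + Y)).filter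
            (fun n => ∀ i, N D r X a (n + u i) (n + v i) ∈ E i)).card : ℝ) -
          Y * ∏ i, Poi (((v i : ℝ) - u i) * V r X a) (E i)| ≤ ε * Y := by
  obtain ⟨r0, h⟩ := fam_joint K D (by omega) (fun X a => Admissible a (X ^ D)) (fun r X a m => Good D r X a m)
    (fun r X a => V r X a) (fam K D hK) θ hθ w x ε hε
  refine ⟨r0, fun r hr => ?_⟩
  filter_upwards [h r hr] with X hX a ha
  exact hX a ha

end Pool.Agent.Results.MP_d018b2_nt.JointWindows
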