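import Pool.Agent.TH977.PW.Inst

set_option autoImplicit false

/-!
# The `q` with all `r_j q + 1` almost prime in short intervals, and their neighbours

Let `𝒜` be an admissible set of `ℓ` positive integers and let `R 𝒜 r` be the set of the `q` for
which all prime factors of the `a q + 1`, `a ∈ 𝒜`, are larger than `q ^ (1 / r)`; it contains all `q`
with all `a q + 1` prime. In every short interval `(X, X + Y]`, `Y ≥ X ^ θ`, there are at least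
`κ Y / log ^ ℓ X` integers `q` in `R 𝒜 r` such that all `a q + 1` have at most `r` prime factors.
Let `A` be an ARBITRARY subset of `R 𝒜 r` (for example the set of the `q` with all `a q + 1` prime).
In every short interval `(X, X + Y]`, `X ^ θ ≤ Y ≤ X / 2`, all but `ε Y / log ^ ℓ X` of the elements
of `A` are regular points of `A`: the elements of `A` in ALL intervals of length between
`log ^ ℓ X / c` and `Y` around them have the right order, and constant density up to `δ` at all but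
`B (ε, δ)` dyadic scales.
-/

namespace Pool.Agent.Results.MP_d018b2_nt.RegularTuplets

open Finset Filter
open Pool.Agent.TH977.PW (N Irregular)

/-- All prime factors of all `a q + 1`, `a ∈ 𝒜`, are larger than `q ^ (1 / r)`. -/
def R (𝒜 : Finset ℕ) (r : ℕ) : Set ℕ :=
  {q | ∀ p : ℕ, p.Prime → p ∣ ∏ a ∈ 𝒜, (a * q + 1) → (q : ℝ) ^ (1 / (r : ℝ)) < (p : ℝ)}

lemma cast_eq (a n : ℕ) : ((a : ℕ) : ℤ) * (n : ℤ) + 1 = ((a * n + 1 : ℕ) : ℤ) := by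
  push_cast
  ring

/-- **Regular tuplets `a q + 1`.** -/
theorem result (𝒜 : Finset ℕ) (hne : 𝒜.Nonempty) (hpos : ∀ a ∈ 𝒜, 1 ≤ a)
    (hadm : ∀ p : ℕ, p.Prime → ∃ q : ℕ, ¬ p ∣ ∏ a ∈ 𝒜, (a * q + 1))
    (θ : ℝ) (hθ : 0 < θ) (hθ1 : θ ≤ 1) :
    ∃ r₀ : ℕ, 2 ≤ r₀ ∧ ∀ r : ℕ, r₀ ≤ r →
      (∀ q : ℕ, 2 ≤ q → (∀ a ∈ 𝒜, (a * q + 1).Prime) → q ∈ R 𝒜 r) ∧
      (∃ κ : ℝ, 0 < κ ∧ ∀ᶠ X : ℕ in atTop, ∀ Y : ℕ, (X : ℝ) ^ θ ≤ Y → Y ≤ X →
        κ * Y / Real.log X ^ 𝒜.card ≤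
          N {q | q ∈ R 𝒜 r ∧ ∀ a ∈ 𝒜, (a * q + 1).primeFactorsList.length ≤ r} X (X + Y)) ∧
      ∀ ε : ℝ, 0 < ε → ∃ c : ℝ, 0 < c ∧ ∀ δ : ℝ, 0 < δ → ∃ B : ℕ,
        ∀ᶠ X : ℕ in atTop, ∀ Y : ℕ, (X : ℝ) ^ θ ≤ Y → 2 * Y ≤ X → ∀ A : Set ℕ, A ⊆ R 𝒜 r →
          (N (Irregular A 𝒜.card c δ B X Y) X (X + Y) : ℝ) ≤ ε * Y / Real.log X ^ 𝒜.card := by
  have : Nonempty {x // x ∈ 𝒜} := ⟨⟨hne.choose, hne.choose_spec⟩⟩
  obtain ⟨r0, hr0, h⟩ := Pool.Agent.TH977.PW.final_lin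
    (fun i : {x // x ∈ 𝒜} => i.1) (fun _ : {x // x ∈ 𝒜} => (1 : ℤ)) (fun i => hpos i.1 i.2)
    (fun i => isCoprime_one_right)
    (fun i j hij _ => Subtype.ext hij)
    (fun p hp => by
      obtain ⟨q, hq⟩ := hadm p hp
      refine ⟨q, fun i hi => hq ?_⟩
      rw [cast_eq, Int.natCast_dvd_natCast] at hi
      exact hi.trans (Finset.dvd_prod_of_mem (fun a => a * q + 1) i.2))
    (fun r => R 𝒜 r)
    (fun r => {q | q ∈ R 𝒜 r ∧ ∀ a ∈ 𝒜, (a * q + 1).primeFactorsList.length ≤ r})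
    𝒜.card (by rw [Fintype.card_coe])
    (fun r m _ hm i p hp hd => hm p hp (by
      rw [cast_eq, Int.natCast_dvd_natCast] at hd
      exact hd.trans (Finset.dvd_prod_of_mem (fun a => a * m + 1) i.2)))
    (fun r m _ h1 h2 => by
      refine ⟨fun q hq hd => ?_, fun a ha => ?_⟩
      · obtain ⟨a, ha, h4⟩ := (Prime.dvd_finsetProd_iff hq.prime _).1 hd
        refine h1 ⟨a, ha⟩ q hq ?_
        rw [cast_eq, Int.natCast_dvd_natCast]
        exact h4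
      · have := h2 ⟨a, ha⟩
        rw [cast_eq, Int.natAbs_natCast] at this
        exact this) θ hθ hθ1
  refine ⟨r0, hr0, fun r hr => ⟨?_, (h r hr).1, (h r hr).2⟩⟩
  intro q hq hpr p hp hd
  obtain ⟨a, ha, h4⟩ := (Prime.dvd_finsetProd_iff hp.prime _).1 hd
  rw [(Nat.prime_dvd_prime_iff_eq hp (hpr a ha)).1 h4]
  refine Pool.Agent.TH977.PW.rpow_lt_of_le r q (a * q + 1) (hr0.trans hr) hq ?_
  have h5 : 1 * q ≤ a * q := Nat.mul_le_mul_right _ (hpos a ha)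
  omega

end Pool.Agent.Results.MP_d018b2_nt.RegularTuplets
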